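import Pool.Agent.MP_86c931_ag.H37.CMPc

/-! The comparison theorem. -/

namespace Pool.Agent.MP_86c931_ag.H37

open Pool.Agent.MP_86c931_ag.H56
open scoped PowerSeries

variable {κ : Type} {σ : κ → Type} [∀ k, DecidableEq (σ k)] {Ot O : Type} [CommRing Ot]
  [Algebra ℂ Ot] [CommRing O] [Algebra ℂ O]

/-- brackets of the coordinates and the parameter -/
noncomputable def Jo (D : CData κ σ Ot O) (k : κ) : Option (σ k) → Option (σ k) → ℂ
  | some s, some t => Jm (D.dual k) (D.sgn k) s t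
  | none, _ => 0
  | some _, none => 0

lemma ccr_opt (D : CData κ σ Ot O) (k : κ) {C : Type} [Ring C] [Algebra ℂ⟦X⟧ C] (h : C)
    (hh : ∀ m, h * m = m * h) (w : σ k → C) {n : ℕ} (hw : CCR (Jm (D.dual k) (D.sgn k)) w n) :
    CCR (Jo D k) (fun t => t.elim h w) n := by
  rintro (_ | s) (_ | t)
  · simpa [Jo] using Dv.zero (C := C) n
  · simpa [Jo, hh] using Dv.zero (C := C) n
  · simpa [Jo, hh] using Dv.zero (C := C) n
  · exact hw s t

lemma ccr_map {C C' : Type} [Ring C] [Algebra ℂ⟦X⟧ C] [Ring C'] [Algebra ℂ⟦X⟧ C'] {τ : Type}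
    (φ : C →ₐ[ℂ⟦X⟧] C') {J : τ → τ → ℂ} {w : τ → C} {n : ℕ} (hw : CCR J w n) :
    CCR J (fun t => φ (w t)) n := by
  intro s t
  have := (hw s t).map φ
  rwa [map_sub, map_sub, map_mul, map_mul, AlgHom.commutes] at this

/-- the truncated deformation of the family -/
structure MSide (D : CData κ σ Ot O) (M : Type) [Ring M] [Algebra ℂ⟦X⟧ M] (N : ℕ) where
  /-- reduction -/
  Q : PQ Ot M
  tr : Q.Trunc N
  ind : Q.Induces D.βt
  surj : Function.Surjective Q.π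
  /-- charts -/
  Mk : κ → Subalgebra ℂ⟦X⟧ M
  /-- intersections -/
  Mkl : κ → κ → Subalgebra ℂ⟦X⟧ M
  sk : ∀ k, Q.Sub (D.Otk k) (Mk k)
  skl : ∀ k l, Q.Sub (D.Otkl k l) (Mkl k l)
  le : ∀ k l, Mk k ≤ Mkl k l ∧ Mk l ≤ Mkl k l
  /-- lifts -/
  w : ∀ k, Option (σ k) → M
  w_mem : ∀ k t, w k t ∈ Mk k
  w_π : ∀ k t, Q.π (w k t) = zt D k t
  w_ccr : ∀ k, CCR (Jo D k) (w k) N
  w_none : ∀ k l, w k none = w l none

/-- the truncated deformation of the fibre -/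
structure BSide (D : CData κ σ Ot O) (B : Type) [Ring B] [Algebra ℂ⟦X⟧ B] (N : ℕ) where
  /-- reduction -/
  Q : PQ O B
  tr : Q.Trunc N
  ind : Q.Induces D.β
  surj : Function.Surjective Q.π
  /-- charts -/
  Bk : κ → Subalgebra ℂ⟦X⟧ B
  /-- intersections -/
  Bkl : κ → κ → Subalgebra ℂ⟦X⟧ B
  sk : ∀ k, Q.Sub (D.Ok k) (Bk k)
  skl : ∀ k l, Q.Sub (D.Okl k l) (Bkl k l)
  le : ∀ k l, Bk k ≤ Bkl k l ∧ Bkl l k ≤ Bkl k l

variable {D : CData κ σ Ot O} {M B : Type} [Ring M] [Algebra ℂ⟦X⟧ M] [Ring B] [Algebra ℂ⟦X⟧ B]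
  {N : ℕ} (X1 : MSide D M N) (X2 : BSide D B N)

lemma gen_le (Gen : RowGen) (k : κ) : X1.Mk k ≤ Algebra.adjoin ℂ⟦X⟧ (Set.range (X1.w k)) := by
  refine Gen Ot M X1.Q N X1.tr _ (X1.w k) _ ?_ (X1.w_mem k)
  rw [show (fun t => X1.Q.π (X1.w k t)) = zt D k from funext (X1.w_π k), adjoin_zt]
  exact X1.sk k

lemma map_k (Gen : RowGen) (k : κ) (φ : M →ₐ[ℂ⟦X⟧] B) (h : ∀ t, φ (X1.w k t) ∈ X2.Bk k) (m : M)
    (hm : m ∈ X1.Mk k) : φ m ∈ X2.Bk k := by
  have : Algebra.adjoin ℂ⟦X⟧ (Set.range (X1.w k)) ≤ (X2.Bk k).comap φ :=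
    Algebra.adjoin_le (by rintro _ ⟨t, rfl⟩; exact h t)
  exact this (gen_le X1 Gen k hm)

lemma map_kl (UL : RowUL) (k l : κ) (φ : M →ₐ[ℂ⟦X⟧] B) (h : ∀ t, φ (X1.w k t) ∈ X2.Bk k)
    (hφ : ∀ m, X2.Q.π (φ m) = D.q (X1.Q.π m)) (m : M) (hm : m ∈ X1.Mkl k l) :
    φ m ∈ X2.Bkl k l := by
  obtain ⟨Gen, Pow, Un, -⟩ := UL
  obtain ⟨u, hu, hu'⟩ := (X1.sk k).surj _ (a_mem D k l)
  obtain ⟨j, hj⟩ := Pow Ot M X1.Q N X1.tr _ _ _ _ (X1.sk k) (X1.skl k l) (X1.le k l).1 u hu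
    (by rw [hu']; exact clear_kl D k l) m hm
  obtain ⟨b', hb', h1, -⟩ := Un O B X2.Q N X2.tr _ _ (X2.skl k l) (φ u)
    ((X2.le k l).1 (map_k X1 X2 Gen k φ h u hu)) _ (ainv_mem D k l) (by rw [hφ, hu', qa_inv])
  rw [← pow_cancel h1 j (φ m), ← map_pow, ← map_mul]
  exact Subalgebra.mul_mem _ (Subalgebra.pow_mem _ hb' j)
    ((X2.le k l).1 (map_k X1 X2 Gen k φ h _ hj))

variable [Fintype κ] [DecidableEq κ]

lemma cong (UL : RowUL) (k : κ) (φ ψ : M →ₐ[ℂ⟦X⟧] B) {n : ℕ}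
    (h : ∀ t, Dv n (ψ (X1.w k t) - φ (X1.w k t))) (m : M) : Dv n (ψ m - φ m) := by
  obtain ⟨Gen, Pow, Un, -⟩ := UL
  have h1 : X1.Mk k ≤ congAlg φ ψ n :=
    (gen_le X1 Gen k).trans (Algebra.adjoin_le (by rintro _ ⟨t, rfl⟩; exact h t))
  obtain ⟨u, hu, hu'⟩ := (X1.sk k).surj _ (bigA_mem D k)
  obtain ⟨j, hj⟩ := Pow Ot M X1.Q N X1.tr _ _ _ _ (X1.sk k) (X1.Q.sub_top X1.surj) le_top u hu
    (fun f _ => by rw [hu']; exact clear_A D k f) m trivial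
  obtain ⟨u', -, h2, h3⟩ := Un Ot M X1.Q N X1.tr _ _ (X1.Q.sub_top X1.surj) u trivial _ trivial
    (by rw [hu']; exact bigA_inv D k)
  rw [← mem_congAlg, ← pow_cancel h2 j m]
  exact Subalgebra.mul_mem _ (Subalgebra.pow_mem _ (congAlg_inv h2 h3 (h1 hu)) j) (h1 hj)

lemma exists_phi (Alg : RowAlg) (UL : RowUL) (k : κ) (b : Option (σ k) → B)
    (hb1 : ∀ t, X2.Q.π (b t) = D.q (zt D k t)) (hc : CCR (Jo D k) b N) :
    ∃ φ : M →ₐ[ℂ⟦X⟧] B, (∀ t, φ (X1.w k t) = b t) ∧ ∀ m, X2.Q.π (φ m) = D.q (X1.Q.π m) := by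
  refine UL.2.2.2 Ot O M B X1.Q X2.Q N X1.tr X2.tr X1.surj X2.surj D.q _ (zt D k) (algInd D Alg k)
    (X1.Mk k) ?_ (bigA D k) ?_ ?_ ?_ (Jo D k) (X1.w k) b (X1.w_mem k) (X1.w_π k) (X1.w_ccr k) hb1 hc
  · rw [adjoin_zt]
    exact X1.sk k
  · rw [adjoin_zt]
    exact bigA_mem D k
  · exact IsUnit.of_mul_eq_one (D.q (∏ l, D.a l k)) (by rw [← map_mul, bigA_inv, map_one])
  · rw [adjoin_zt]
    exact clear_A D k

variable [∀ k, Fintype (σ k)]

omit [Fintype κ] [DecidableEq κ] in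
lemma step_lead (PO : RowPOIN) (UL : RowUL) (φ : κ → (M →ₐ[ℂ⟦X⟧] B))
    (h : ∀ k t, φ k (X1.w k t) ∈ X2.Bk k) (hφ : ∀ k m, X2.Q.π (φ k m) = D.q (X1.Q.π m))
    (hH : ∀ k l, φ k (X1.w k none) = φ l (X1.w l none)) {n : ℕ} (hn : n + 1 < N)
    (hd : ∀ k l m, Dv n (φ k m - φ l m)) :
    ∃ (c : ℂ) (F : κ → O), (∀ k, F k ∈ D.Ok k) ∧ ∀ k l, Lead X1.Q X2.Q (φ k) (φ l) n
      fun g => theta D l (F l) c g - theta D k (F k) c g := by
  have h0 := fun k l => exists_lead X1.Q X2.Q X2.tr X1.surj D.q (φ k) (φ l) (hφ k) (hφ l)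
    (Nat.lt_of_succ_lt hn) (hd l k)
  choose δ hL hq using h0
  obtain ⟨c, F, hF, hδ⟩ := solve D PO.2.1 PO.2.2.1 δ hq
    (fun k l => (hL k l).poisson X2.tr X1.surj (hφ k) (hφ l) hn (hd l k) X1.ind X2.ind)
    (fun k l => by
      have := hL k l (X1.w k none) 0 (by rw [hH k l, X1.w_none k l, sub_self, smul_zero])
      rw [map_zero, X1.w_π] at this
      exact this.symm)
    (fun k l s => by
      have h1 : φ l (X1.w k (some s)) - φ k (X1.w k (some s)) ∈ X2.Bkl k l :=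
        Subalgebra.sub_mem _ ((X2.le k l).2 (map_kl X1 X2 UL l k (φ l) (h l) (hφ l) _
          ((X1.le l k).2 (X1.w_mem k _)))) ((X2.le k l).1 (h k _))
      obtain ⟨e, he, he'⟩ := (X2.skl k l).dv_trunc X2.tr (by omega : n ≤ N) h1 (hd l k _)
      have := hL k l _ e he'
      rw [X1.w_π] at this
      change _ = δ k l (D.z k s) at this
      rw [← this]
      exact (X2.skl k l).map_mem e he)
    (fun k l m g => by
      obtain ⟨x, rfl⟩ := X1.surj g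
      obtain ⟨e1, h1⟩ := hd l k x
      obtain ⟨e2, h2⟩ := hd m l x
      rw [← hL k l x e1 h1, ← hL l m x e2 h2, ← map_add]
      exact hL k m x _ (by rw [smul_add, ← h1, ← h2]; abel))
  refine ⟨c, F, hF, fun k l m e he => ?_⟩
  rw [hL k l m e he, hδ]

omit [∀ k, Fintype (σ k)] in
lemma step_fin (UL : RowUL) (φ ψ : κ → (M →ₐ[ℂ⟦X⟧] B))
    (hφ : ∀ k m, X2.Q.π (φ k m) = D.q (X1.Q.π m)) (hψ : ∀ k m, X2.Q.π (ψ k m) = D.q (X1.Q.π m))
    {n : ℕ} (hn : n < N) (hd : ∀ k l m, Dv n (φ k m - φ l m)) (c : ℂ) (F : κ → O)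
    (hL : ∀ k l, Lead X1.Q X2.Q (φ k) (φ l) n fun g => theta D l (F l) c g - theta D k (F k) c g)
    (he : ∀ k t, ∃ e, ψ k (X1.w k t) - φ k (X1.w k t) = hb ^ n • e ∧
      X2.Q.π e = -theta D k (F k) c (zt D k t)) (k l : κ) (m : M) :
    Dv (n + 1) (ψ k m - ψ l m) := by
  have h1 : ∀ k m, Dv n (ψ k m - φ k m) := fun k =>
    cong X1 UL k (φ k) (ψ k) fun t => (he k t).imp fun _ h => h.1
  have h2 : ∀ k, Lead X1.Q X2.Q (φ k) (ψ k) n fun g => -theta D k (F k) c g := by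
    intro k
    obtain ⟨ε, hε, hq⟩ := exists_lead X1.Q X2.Q X2.tr X1.surj D.q (φ k) (ψ k) (hφ k) (hψ k) hn (h1 k)
    have h3 : ∀ t, ε (zt D k t) = -theta D k (F k) c (zt D k t) := by
      intro t
      obtain ⟨e, he1, he2⟩ := he k t
      rw [← he2, hε _ e he1, X1.w_π]
    have h4 : IsQD D.q fun g => -theta D k (F k) c g := by
      have := (theta_qd D k (F k) c).comb (theta_qd D k (F k) c) (-1) 0
      simpa using this
    intro m e hme
    rw [hε m e hme]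
    exact qd_ext D k hq h4 (fun s => h3 (some s)) (h3 none) _
  obtain ⟨e1, h3⟩ := h1 k m
  obtain ⟨e2, h4⟩ := hd k l m
  obtain ⟨e3, h5⟩ := h1 l m
  obtain ⟨d, hd⟩ := X2.Q.ker (e1 + e2 - e3) (by
    rw [map_sub, map_add, h2 k m e1 h3, h2 l m e3 h5, hL l k m e2 h4]
    ring)
  refine ⟨d, ?_⟩
  rw [pow_succ, mul_smul, ← hd, smul_sub, smul_add, ← h3, ← h4, ← h5]
  abel

end Pool.Agent.MP_86c931_ag.H37

namespace Pool.Agent.MP_86c931_ag.H37

open Pool.Agent.MP_86c931_ag.H56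
open scoped PowerSeries

theorem rowCMP : RowPOIN → RowDARB → RowUL → RowCMP := by
  intro PO DA UL κ _ _ σ _ _ Ot O M B _ _ _ _ _ _ _ _ D QM QB tfM tfB iM iB sM sB Mk Mkl Bk Bkl
    hMk hMkl hBk hBkl leM leB Hq hHq πHq cHq N
  have hw : ∀ k, ∃ w : σ k → M, (∀ s, w s ∈ Mk k) ∧ (∀ s, QM.π (w s) = D.z k s) ∧
      CCR (Jm (D.dual k) (D.sgn k)) w (N + 2) := by
    intro k
    choose w0 h1 h2 using fun s => (hMk k).surj _ (z_mem D k s)
    obtain ⟨h3, h4⟩ := DA Ot M QM D.βt tfM iM D.pt.2.1 _ _ (hMk k) (σ k) (D.z k) _ (darbT D k).ccr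
      ((darbT D k).p2 PO.1 {D.H} (by rintro s _ rfl; exact br_H D _)) w0 h1 h2
    obtain ⟨w, h5, h6, h7⟩ := h4 1 (N + 2) le_rfl h3
    refine ⟨w, h5, fun s => ?_, h7⟩
    have := QM.π_dv (h6 s)
    rwa [map_sub, h2, sub_eq_zero] at this
  choose w hw1 hw2 hw3 using hw
  let X1 : MSide D (Tr M (N + 2)) (N + 2) :=
    { Q := QM.trunc (N + 1)
      tr := QM.trunc_Trunc tfM (N + 1)
      ind := iM.trunc N
      surj := fun f => by
        obtain ⟨m, rfl⟩ := sM f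
        exact ⟨trMk M (N + 2) m, rfl⟩
      Mk := fun k => (Mk k).map (trMk M (N + 2))
      Mkl := fun k l => (Mkl k l).map (trMk M (N + 2))
      sk := fun k => (hMk k).trunc (N + 1)
      skl := fun k l => (hMkl k l).trunc (N + 1)
      le := fun k l => ⟨Subalgebra.map_mono (leM k l).1, Subalgebra.map_mono (leM k l).2⟩
      w := fun k t => trMk M (N + 2) (t.elim Hq (w k))
      w_mem := by
        rintro k (_ | s)
        · exact ⟨_, hHq k, rfl⟩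
        · exact ⟨_, hw1 k s, rfl⟩
      w_π := by
        rintro k (_ | s)
        · exact πHq
        · exact hw2 k s
      w_ccr := fun k => ccr_map _ (ccr_opt D k Hq cHq (w k) (hw3 k))
      w_none := fun _ _ => rfl }
  let X2 : BSide D (Tr B (N + 2)) (N + 2) :=
    { Q := QB.trunc (N + 1)
      tr := QB.trunc_Trunc tfB (N + 1)
      ind := iB.trunc N
      surj := fun f => by
        obtain ⟨m, rfl⟩ := sB f
        exact ⟨trMk B (N + 2) m, rfl⟩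
      Bk := fun k => (Bk k).map (trMk B (N + 2))
      Bkl := fun k l => (Bkl k l).map (trMk B (N + 2))
      sk := fun k => (hBk k).trunc (N + 1)
      skl := fun k l => (hBkl k l).trunc (N + 1)
      le := fun k l => ⟨Subalgebra.map_mono (leB k l).1, Subalgebra.map_mono (leB k l).2⟩ }
  have X2π : ∀ b, X2.Q.π (trMk B (N + 2) b) = QB.π b := fun _ => rfl
  have darb : ∀ k (b : σ k → B), (∀ s, b s ∈ Bk k) → (∀ s, QB.π (b s) = zb D k s) →
      CCR (Jm (D.dual k) (D.sgn k)) b 2 ∧ ∀ m N : ℕ, 1 ≤ m →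
        CCR (Jm (D.dual k) (D.sgn k)) b (m + 1) → ∃ b' : σ k → B, (∀ s, b' s ∈ Bk k) ∧
          (∀ s, Dv m (b' s - b s)) ∧ CCR (Jm (D.dual k) (D.sgn k)) b' N := by
    intro k
    refine DA O B QB D.β tfB iB D.p.2.1 _ _ (hBk k) (σ k) (zb D k) _ (darbO D k).ccr ?_
    rw [Ok_eq]
    exact (darbO D k).p2 PO.1 {D.q D.H} (by rintro s _ rfl; rw [D.q_H, br_zero_r D.p])
  have mk : ∀ (lam : ℂ⟦X⟧), PowerSeries.constantCoeff lam = 0 → ∀ k (b : σ k → B),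
      (∀ s, QB.π (b s) = zb D k s) → CCR (Jm (D.dual k) (D.sgn k)) b (N + 2) →
      ∃ φ : Tr M (N + 2) →ₐ[ℂ⟦X⟧] Tr B (N + 2),
        (∀ t, φ (X1.w k t) = trMk B (N + 2) (t.elim (algebraMap ℂ⟦X⟧ B lam) b)) ∧
        ∀ m, X2.Q.π (φ m) = D.q (X1.Q.π m) := by
    intro lam hl k b h1 h2
    refine exists_phi X1 X2 PO.2.2.2 UL k _ ?_
      (ccr_map _ (ccr_opt D k _ (Algebra.commutes lam) b h2))
    rintro (_ | s)
    · rw [X2π]
      change QB.π (algebraMap ℂ⟦X⟧ B lam) = D.q D.H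
      rw [QB.π_alg, hl, map_zero, D.q_H]
    · exact h1 s
  have main : ∀ n, n ≤ N → ∃ (lam : ℂ⟦X⟧) (b : ∀ k, σ k → B)
      (φ : κ → (Tr M (N + 2) →ₐ[ℂ⟦X⟧] Tr B (N + 2))), PowerSeries.constantCoeff lam = 0 ∧
      (∀ k s, b k s ∈ Bk k) ∧ (∀ k s, QB.π (b k s) = zb D k s) ∧
      (∀ k, CCR (Jm (D.dual k) (D.sgn k)) (b k) (N + 2)) ∧
      (∀ k t, φ k (X1.w k t) = trMk B (N + 2) (t.elim (algebraMap ℂ⟦X⟧ B lam) (b k))) ∧
      (∀ k m, X2.Q.π (φ k m) = D.q (X1.Q.π m)) ∧ ∀ k l m, Dv (n + 1) (φ k m - φ l m) := by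
    intro n
    induction n with
    | zero =>
      intro _
      have hb0 : ∀ k, ∃ b : σ k → B, (∀ s, b s ∈ Bk k) ∧ (∀ s, QB.π (b s) = zb D k s) ∧
          CCR (Jm (D.dual k) (D.sgn k)) b (N + 2) := by
        intro k
        choose b0 h1 h2 using fun s => (hBk k).surj (zb D k s) ⟨_, z_mem D k s, rfl⟩
        obtain ⟨h3, h4⟩ := darb k b0 h1 h2
        obtain ⟨b, h5, h6, h7⟩ := h4 1 (N + 2) le_rfl h3
        refine ⟨b, h5, fun s => ?_, h7⟩
        have := QB.π_dv (h6 s)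
        rwa [map_sub, h2, sub_eq_zero] at this
      choose b h1 h2 h3 using hb0
      choose φ h4 h5 using fun k => mk 0 (map_zero _) k (b k) (h2 k) (h3 k)
      exact ⟨0, b, φ, map_zero _, h1, h2, h3, h4, h5, fun k l m =>
        X2.Q.dv_one (by rw [map_sub, h5, h5, sub_self])⟩
    | succ n ih =>
      intro hn
      obtain ⟨lam, b, φ, h0, h1, h2, h3, h4, h5, h6⟩ := ih (Nat.le_of_succ_le hn)
      obtain ⟨c, F, hF, hL⟩ := step_lead X1 X2 PO UL φ (fun k t => by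
          rw [h4]
          rcases t with _ | s
          · exact ⟨_, Subalgebra.algebraMap_mem _ lam, rfl⟩
          · exact ⟨_, h1 k s, rfl⟩) h5 (fun k l => by rw [h4, h4]; rfl)
        (by omega : n + 1 + 1 < N + 2) h6
      choose y hy1 hy2 using fun k s => (hBk k).surj _ (br_Ok D k (hF k) s)
      have hb1 : ∀ k, ∃ b' : σ k → B, (∀ s, b' s ∈ Bk k) ∧
          (∀ s, Dv (n + 2) (b' s - (b k s - hb ^ (n + 1) • y k s))) ∧
          CCR (Jm (D.dual k) (D.sgn k)) b' (N + 2) := fun k =>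
        (darb k (fun s => b k s - hb ^ (n + 1) • y k s)
          (fun s => Subalgebra.sub_mem _ (h1 k s) (Subalgebra.smul_mem _ (hy1 k s) _))
          (fun s => by rw [map_sub, QB.π_dv (Dv.pow_smul _ _), sub_zero, h2])).2 (n + 2) (N + 2)
          (by omega) (ccr_shift QB D.p iB _ (zb D k) (darbO D k).ccr (F k) (b k) (y k) (h2 k)
            (hy2 k) (by omega : 1 ≤ n + 1) fun s t => (h3 k s t).mono (by omega))
      choose b' g1 g2 g3 using hb1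
      have g4 : ∀ k s, QB.π (b' k s) = zb D k s := by
        intro k s
        have := QB.π_dv (g2 k s)
        rwa [map_sub, map_sub, QB.π_dv (Dv.pow_smul _ _), sub_zero, h2, sub_eq_zero] at this
      have g0 : PowerSeries.constantCoeff (lam - hb ^ (n + 1) * PowerSeries.C c) = 0 := by
        simp [h0]
      choose ψ g5 g6 using fun k => mk _ g0 k (b' k) (g4 k) (g3 k)
      refine ⟨_, b', ψ, g0, g1, g4, g3, g5, g6,
        step_fin X1 X2 UL φ ψ h5 g6 (by omega : n + 1 < N + 2) h6 c F hL ?_⟩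
      rintro k (_ | s)
      · refine ⟨trMk B (N + 2) (-algebraMap ℂ⟦X⟧ B (PowerSeries.C c)), ?_, ?_⟩
        · rw [g5, h4, ← map_sub, ← map_smul]
          congr 1
          simp only [Option.elim, map_sub, map_mul, Algebra.smul_def, mul_neg]
          abel
        · rw [X2π, map_neg, QB.π_alg, PowerSeries.constantCoeff_C]
          exact congrArg Neg.neg (theta_H D k (F k) c).symm
      · obtain ⟨d, hd⟩ := g2 k s
        refine ⟨trMk B (N + 2) (hb • d - y k s), ?_, ?_⟩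
        · rw [g5, h4, ← map_sub, ← map_smul]
          congr 1
          simp only [Option.elim]
          rw [smul_sub, smul_smul, ← pow_succ, ← hd]
          abel
        · rw [X2π, map_sub, QB.π_hb_smul, zero_sub, hy2]
          exact congrArg Neg.neg (theta_z D k (F k) c s).symm
  obtain ⟨lam, b, φ, -, h1, -, -, h4, -, h6⟩ := main N le_rfl
  refine ⟨fun k => (φ k).comp (trMk M (N + 2)), fun k m hm => ?_, fun k l m => h6 k l _⟩
  obtain ⟨b', hb1, hb2⟩ := map_k X1 X2 UL.1 k (φ k) (fun t => by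
    rw [h4]
    rcases t with _ | s
    · exact ⟨_, Subalgebra.algebraMap_mem _ lam, rfl⟩
    · exact ⟨_, h1 k s, rfl⟩) (trMk M (N + 2) m) ⟨m, hm, rfl⟩
  exact ⟨b', hb1, hb2.symm⟩

end Pool.Agent.MP_86c931_ag.H37
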