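import Pool.Agent.MP_86c931_ag.H56.RowsA

/-! Poisson brackets in Darboux coordinates. -/

namespace Pool.Agent.MP_86c931_ag.H37

open Pool.Agent.MP_86c931_ag.H56

section poisson

variable {O : Type} [CommRing O] [Algebra ℂ O] {β : O → O → O}

/-- the Hamiltonian derivation -/
noncomputable def ham (hp : IsPoisson β) (f : O) : Derivation ℂ O O := (hp.1 f).choose

lemma ham_apply (hp : IsPoisson β) (f g : O) : ham hp f g = β f g :=
  ((hp.1 f).choose_spec g).symm

lemma br_anti (hp : IsPoisson β) (f g : O) : β f g = -β g f := hp.2.1 f g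

lemma br_add_r (hp : IsPoisson β) (f g h : O) : β f (g + h) = β f g + β f h := by
  simp only [← ham_apply hp, map_add]

lemma br_sub_r (hp : IsPoisson β) (f g h : O) : β f (g - h) = β f g - β f h := by
  simp only [← ham_apply hp, map_sub]

lemma br_neg_r (hp : IsPoisson β) (f g : O) : β f (-g) = -β f g := by
  simp only [← ham_apply hp, map_neg]

lemma br_zero_r (hp : IsPoisson β) (f : O) : β f 0 = 0 := by
  simp only [← ham_apply hp, map_zero]

lemma br_smul_r (hp : IsPoisson β) (c : ℂ) (f g : O) : β f (c • g) = c • β f g := by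
  simp only [← ham_apply hp, Derivation.map_smul]

lemma br_mul_r (hp : IsPoisson β) (f g h : O) : β f (g * h) = g * β f h + β f g * h := by
  simp only [← ham_apply hp, Derivation.leibniz, smul_eq_mul]
  ring

lemma br_alg_r (hp : IsPoisson β) (f : O) (c : ℂ) : β f (algebraMap ℂ O c) = 0 := by
  simp only [← ham_apply hp, Derivation.map_algebraMap]

lemma br_add_l (hp : IsPoisson β) (f g h : O) : β (f + g) h = β f h + β g h := by
  rw [br_anti hp (f + g), br_add_r hp, br_anti hp f h, br_anti hp g h]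
  ring

lemma br_sub_l (hp : IsPoisson β) (f g h : O) : β (f - g) h = β f h - β g h := by
  rw [br_anti hp (f - g), br_sub_r hp, br_anti hp f h, br_anti hp g h]
  ring

lemma br_zero_l (hp : IsPoisson β) (f : O) : β 0 f = 0 := by
  rw [br_anti hp, br_zero_r hp, neg_zero]

lemma br_alg_l (hp : IsPoisson β) (f : O) (c : ℂ) : β (algebraMap ℂ O c) f = 0 := by
  rw [br_anti hp, br_alg_r hp, neg_zero]

lemma br_leib (hp : IsPoisson β) (F f g : O) : β F (β f g) = β (β F f) g + β f (β F g) := by
  have h := hp.2.2 F f g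
  rw [br_anti hp g F, br_neg_r hp, br_anti hp g (β F f)] at h
  linear_combination h

/-- the matrix of brackets -/
noncomputable def Jm {σ : Type} [DecidableEq σ] (dual : σ → σ) (sgn : σ → ℂ) (s t : σ) : ℂ :=
  if t = dual s then sgn s else 0

/-- Darboux coordinates -/
structure Darb (β : O → O → O) {σ : Type} [DecidableEq σ] (z : σ → O) (dual : σ → σ)
    (sgn : σ → ℂ) : Prop where
  hp : IsPoisson β
  dd : ∀ s, dual (dual s) = s
  sq : ∀ s, sgn s * sgn s = 1
  sd : ∀ s, sgn (dual s) = -sgn s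
  ccr : ∀ s t, β (z s) (z t) = algebraMap ℂ O (Jm dual sgn s t)

namespace Darb

variable {σ : Type} [DecidableEq σ] {z : σ → O} {dual : σ → σ} {sgn : σ → ℂ}
  (h : Darb β z dual sgn)

include h in
lemma inj {s t : σ} (e : dual s = dual t) : s = t := by
  rw [← h.dd s, e, h.dd]

/-- the coordinate derivations -/
noncomputable def coord : Coord O σ where
  d s := sgn (dual s) • ham h.hp (z (dual s))
  z := z
  comm s t f := by
    simp only [Derivation.smul_apply, ham_apply, br_smul_r h.hp]
    rw [br_leib h.hp (z (dual s)) (z (dual t)) f, h.ccr, br_alg_l h.hp, zero_add, smul_comm]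
  dz s t := by
    simp only [Derivation.smul_apply, ham_apply, h.ccr, Jm, h.dd]
    split_ifs with h1 h2 h2
    · rw [Algebra.smul_def, ← map_mul, h.sq, map_one]
    · exact absurd h1.symm h2
    · exact absurd h2.symm h1
    · simp

lemma coord_z : h.coord.z = z := rfl

lemma coord_d (s : σ) (f : O) : h.coord.d s f = sgn (dual s) • β (z (dual s)) f := by
  simp only [coord, Derivation.smul_apply, ham_apply]

lemma br_eq (s : σ) (f : O) : β (z s) f = sgn s • h.coord.d (dual s) f := by
  rw [coord_d, h.dd, smul_smul, h.sq, one_smul]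

include h in
lemma p2 [Fintype σ] (P2 : RowP2) (Z : Set O) (hZ : ∀ s, ∀ x ∈ Z, β (z s) x = 0)
    (g : σ → σ → O) (hg : ∀ s t, g s t ∈ Algebra.adjoin ℂ (Set.range z ∪ Z))
    (ha : ∀ s t, g s t = -g t s)
    (hc : ∀ s t u, β (z s) (g t u) + β (z t) (g u s) + β (z u) (g s t) = 0) :
    ∃ b : σ → O, (∀ s, b s ∈ Algebra.adjoin ℂ (Set.range z ∪ Z)) ∧
      ∀ s t, β (z s) (b t) - β (z t) (b s) = g s t := by
  obtain ⟨b, hb1, hb2⟩ := P2 O σ h.coord Z
    (fun s x hx => by rw [coord_d, hZ _ x hx, smul_zero])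
    (fun s t => (sgn (dual s) * sgn (dual t)) • g (dual s) (dual t))
    (fun s t => Subalgebra.smul_mem _ (hg _ _) _)
    (fun s t => by rw [ha (dual s), smul_neg, mul_comm])
    (fun s t u => by
      simp only [coord_d, br_smul_r h.hp, smul_smul]
      have := congrArg (fun x => (sgn (dual s) * sgn (dual t) * sgn (dual u)) • x)
        (hc (dual s) (dual t) (dual u))
      simp only [smul_add, smul_zero] at this
      rw [← this]
      congr 1
      · congr 2
        · ring
        · ring
      · congr 1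
        ring)
  refine ⟨fun t => sgn t • b (dual t), fun s => Subalgebra.smul_mem _ (hb1 _) _, fun s t => ?_⟩
  have := hb2 (dual s) (dual t)
  simp only [h.dd] at this
  rw [br_smul_r h.hp, br_smul_r h.hp, h.br_eq s, h.br_eq t, smul_smul, smul_smul,
    mul_comm (sgn t), ← smul_sub, this, smul_smul]
  have e : sgn s * sgn t * (sgn s * sgn t) = 1 := by
    linear_combination sgn t * sgn t * h.sq s + h.sq t
  rw [e, one_smul]

include h in
lemma p1 [Fintype σ] (P1 : RowP1) (s0 : σ) (a' : O) (ha : z s0 * a' = 1) (α : σ → O)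
    (hα : ∀ s, α s ∈ Algebra.adjoin ℂ (Set.range z ∪ {a'}))
    (hc : ∀ s t, β (α s) (z t) + β (z s) (α t) = 0) :
    ∃ f ∈ Algebra.adjoin ℂ (Set.range z ∪ {a'}), ∃ r : ℂ,
      ∀ s, α s = β f (z s) + r • (β (z s0) (z s) * a') := by
  obtain ⟨f, hf, r, hr⟩ := P1 O σ h.coord s0 a' ha (fun s => -(sgn (dual s) • α (dual s)))
    (fun s => Subalgebra.neg_mem _ (Subalgebra.smul_mem _ (hα _) _))
    (fun s t => by
      simp only [coord_d, br_neg_r h.hp, br_smul_r h.hp, smul_neg, smul_smul]
      have := hc (dual s) (dual t)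
      rw [br_anti h.hp (α _)] at this
      rw [mul_comm (sgn (dual t)), show β (z (dual s)) (α (dual t)) = β (z (dual t)) (α (dual s))
        by linear_combination this])
  refine ⟨f, hf, r, fun s => ?_⟩
  have h1 := hr (dual s)
  simp only [coord_d, h.dd] at h1
  have h2 := congrArg (fun x => -(sgn s • x)) h1
  simp only [smul_neg, neg_neg, smul_smul, h.sq, one_smul, smul_add, neg_add] at h2
  rw [h2, br_anti h.hp f, h.ccr, Jm]
  congr 1
  by_cases e : s = dual s0
  · subst e
    rw [if_pos (h.dd s0), if_pos rfl, h.sd, ← Algebra.smul_def, smul_smul, smul_smul, neg_mul,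
      neg_smul, neg_neg, mul_comm]
  · rw [if_neg e, if_neg (fun e' => e (by rw [← e', h.dd]))]
    simp

include h in
lemma p0a [Fintype σ] [Nontrivial O] (P0 : RowP0) (I : Set O) (hI : ∀ w ∈ I, ∃ s, z s * w = 1)
    (htop : Algebra.adjoin ℂ (Set.range z ∪ I) = ⊤) (F : O) (s : σ) (r : ℂ)
    (hF : z s * β F (z (dual s)) = algebraMap ℂ O r) : r = 0 := by
  have h1 := (P0 O σ h.coord I hI F (by rw [coord_z, htop]; trivial)).1 s (-(sgn (dual s) * r)) (by
    rw [coord_d, coord_z, br_anti h.hp, smul_neg, mul_neg, mul_smul_comm, hF, map_neg, map_mul,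
      Algebra.smul_def])
  have h2 : -(sgn (dual s) * r) = 0 := (algebraMap ℂ O).injective (by rw [h1, map_zero])
  linear_combination -sgn (dual s) * h2 - r * h.sq (dual s)

include h in
lemma p0b [Fintype σ] (P0 : RowP0) (I : Set O) (hI : ∀ w ∈ I, ∃ s, z s * w = 1)
    (htop : Algebra.adjoin ℂ (Set.range z ∪ I) = ⊤) (F : O) (hF : ∀ s, β F (z s) = 0) :
    ∃ r : ℂ, F = algebraMap ℂ O r :=
  (P0 O σ h.coord I hI F (by rw [coord_z, htop]; trivial)).2 fun s => by
    rw [coord_d, br_anti h.hp, hF, neg_zero, smul_zero]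

include h in
lemma br_mem (Z : Set O) (hZ : ∀ s, ∀ x ∈ Z, β (z s) x = 0) (s : σ) (F : O)
    (hF : F ∈ Algebra.adjoin ℂ (Set.range z ∪ Z)) :
    β F (z s) ∈ Algebra.adjoin ℂ (Set.range z ∪ Z) := by
  rw [br_anti h.hp]
  refine Subalgebra.neg_mem _ ?_
  induction hF using Algebra.adjoin_induction with
  | mem x hx =>
    rcases hx with ⟨t, rfl⟩ | hx
    · rw [h.ccr]
      exact Subalgebra.algebraMap_mem _ _
    · rw [hZ s x hx]
      exact Subalgebra.zero_mem _
  | algebraMap r =>
    rw [br_alg_r h.hp]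
    exact Subalgebra.zero_mem _
  | add x y _ _ hx hy =>
    rw [br_add_r h.hp]
    exact Subalgebra.add_mem _ hx hy
  | mul x y hx' hy' hx hy =>
    rw [br_mul_r h.hp]
    exact Subalgebra.add_mem _ (Subalgebra.mul_mem _ hx' hy) (Subalgebra.mul_mem _ hx hy')

end Darb

end poisson

section qder

variable {Ot O : Type} [CommRing Ot] [Algebra ℂ Ot] [CommRing O] [Algebra ℂ O]

/-- derivations along a homomorphism -/
structure IsQD (q : Ot →ₐ[ℂ] O) (δ : Ot → O) : Prop where
  add : ∀ f g, δ (f + g) = δ f + δ g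
  smul : ∀ (c : ℂ) f, δ (c • f) = c • δ f
  mul : ∀ f g, δ (f * g) = q f * δ g + δ f * q g

variable {q : Ot →ₐ[ℂ] O} {δ ε : Ot → O}

lemma IsQD.one (h : IsQD q δ) : δ 1 = 0 := by
  have := h.mul 1 1
  simp only [mul_one, map_one, one_mul] at this
  linear_combination -this

lemma IsQD.alg (h : IsQD q δ) (c : ℂ) : δ (algebraMap ℂ Ot c) = 0 := by
  rw [Algebra.algebraMap_eq_smul_one, h.smul, h.one, smul_zero]

lemma IsQD.ext (h : IsQD q δ) (h' : IsQD q ε) (S : Set Ot) (hS : ∀ x ∈ S, δ x = ε x) (f : Ot)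
    (hf : f ∈ Algebra.adjoin ℂ S) : δ f = ε f := by
  induction hf using Algebra.adjoin_induction with
  | mem x hx => exact hS x hx
  | algebraMap r => rw [h.alg, h'.alg]
  | add x y _ _ hx hy => rw [h.add, h'.add, hx, hy]
  | mul x y _ _ hx hy => rw [h.mul, h'.mul, hx, hy]

lemma IsQD.inv (h : IsQD q δ) (h' : IsQD q ε) {a b : Ot} (hab : a * b = 1) (ha : δ a = ε a) :
    δ b = ε b := by
  have h1 := h.mul a b
  have h2 := h'.mul a b
  have h3 : q a * q b = 1 := by rw [← map_mul, hab, map_one]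
  rw [hab, h.one, ha] at h1
  rw [hab, h'.one] at h2
  linear_combination -(q b) * h1 + q b * h2 - (δ b - ε b) * h3

lemma isQD_br {β : O → O → O} (hp : IsPoisson β) (F : O) : IsQD q fun g => β F (q g) :=
  ⟨fun f g => by rw [map_add, br_add_r hp], fun c f => by rw [map_smul, br_smul_r hp],
    fun f g => by rw [map_mul, br_mul_r hp]⟩

lemma isQD_der (η : Derivation ℂ Ot Ot) : IsQD q fun g => q (η g) :=
  ⟨fun f g => by rw [map_add, map_add], fun c f => by rw [Derivation.map_smul, map_smul],
    fun f g => by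
      simp only [Derivation.leibniz, smul_eq_mul, map_add, map_mul]
      ring⟩

lemma IsQD.comb (h : IsQD q δ) (h' : IsQD q ε) (a b : O) : IsQD q fun g => a * δ g + b * ε g :=
  ⟨fun f g => by rw [h.add, h'.add]; ring, fun c f => by
    rw [h.smul, h'.smul, smul_add, mul_smul_comm, mul_smul_comm], fun f g => by
    rw [h.mul, h'.mul]; ring⟩

end qder

end Pool.Agent.MP_86c931_ag.H37
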