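import Pool.Agent.MP_86c931_ag.H37.CMPa

/-! Differences of homomorphisms between truncated deformations. -/

namespace Pool.Agent.MP_86c931_ag.H37

open Pool.Agent.MP_86c931_ag.H56
open scoped PowerSeries

variable {Ot O M B : Type} [CommRing Ot] [Algebra ℂ Ot] [CommRing O] [Algebra ℂ O]
  [Ring M] [Algebra ℂ⟦X⟧ M] [Ring B] [Algebra ℂ⟦X⟧ B]

/-- the elements on which two homomorphisms are congruent -/
def congAlg (φ ψ : M →ₐ[ℂ⟦X⟧] B) (n : ℕ) : Subalgebra ℂ⟦X⟧ M where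
  carrier := {m | Dv n (ψ m - φ m)}
  mul_mem' := by
    intro a b ha hb'
    have := (Dv.mul_left hb' (ψ a)).add (Dv.mul_right ha (φ b))
    simp only [Set.mem_ofPred_eq, map_mul]
    convert this using 1
    noncomm_ring
  add_mem' := by
    intro a b ha hb'
    have := Dv.add ha hb'
    simp only [Set.mem_ofPred_eq, map_add]
    convert this using 1
    abel
  algebraMap_mem' c := by
    simp only [Set.mem_ofPred_eq, AlgHom.commutes, sub_self]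
    exact Dv.zero n

lemma mem_congAlg {φ ψ : M →ₐ[ℂ⟦X⟧] B} {n : ℕ} {m : M} :
    m ∈ congAlg φ ψ n ↔ Dv n (ψ m - φ m) := Iff.rfl

lemma congAlg_inv {φ ψ : M →ₐ[ℂ⟦X⟧] B} {n : ℕ} {u u' : M} (h1 : u' * u = 1) (h2 : u * u' = 1)
    (hu : u ∈ congAlg φ ψ n) : u' ∈ congAlg φ ψ n := by
  rw [mem_congAlg] at hu ⊢
  have e1 : ψ u' * ψ u = 1 := by rw [← map_mul, h1, map_one]
  have e2 : φ u * φ u' = 1 := by rw [← map_mul, h2, map_one]
  have := ((hu.mul_left (ψ u')).mul_right (φ u')).neg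
  convert this using 1
  rw [mul_sub, sub_mul, e1, one_mul, mul_assoc, e2, mul_one]
  abel

lemma pow_cancel {u u' : M} (h1 : u' * u = 1) (j : ℕ) (m : M) : u' ^ j * (u ^ j * m) = m := by
  induction j with
  | zero => simp
  | succ j ih => rw [pow_succ u', pow_succ' u, mul_assoc, mul_assoc, ← mul_assoc u', h1, one_mul, ih]

/-- `δ` is the leading term of the difference of two homomorphisms -/
def Lead (Q1 : PQ Ot M) (Q2 : PQ O B) (φ ψ : M →ₐ[ℂ⟦X⟧] B) (n : ℕ) (δ : Ot → O) : Prop :=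
  ∀ m e, ψ m - φ m = hb ^ n • e → Q2.π e = δ (Q1.π m)

lemma exists_lead (Q1 : PQ Ot M) (Q2 : PQ O B) {N : ℕ} (hT : Q2.Trunc N)
    (hs : Function.Surjective Q1.π) (q : Ot →ₐ[ℂ] O) (φ ψ : M →ₐ[ℂ⟦X⟧] B)
    (hφ : ∀ m, Q2.π (φ m) = q (Q1.π m)) (hψ : ∀ m, Q2.π (ψ m) = q (Q1.π m)) {n : ℕ} (hn : n < N)
    (hd : ∀ m, Dv n (ψ m - φ m)) :
    ∃ δ : Ot → O, Lead Q1 Q2 φ ψ n δ ∧ IsQD q δ := by
  choose s hs using hs
  choose e he using hd
  have key : Lead Q1 Q2 φ ψ n fun f => Q2.π (e (s f)) := by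
    intro m e1 h1
    obtain ⟨d, hd⟩ := Q1.ker (m - s (Q1.π m)) (by rw [map_sub, hs, sub_self])
    have h2 : hb ^ n • (e1 - e (s (Q1.π m)) - hb • e d) = 0 := by
      rw [smul_sub, smul_sub, ← h1, ← he, smul_comm, ← he, smul_sub, ← map_smul, ← map_smul, ← hd,
        map_sub, map_sub]
      abel
    have h3 := hT.2 n hn _ h2
    rw [map_sub, map_sub, Q2.π_hb_smul, sub_zero, sub_eq_zero] at h3
    exact h3
  refine ⟨_, key, fun f g => ?_, fun c f => ?_, fun f g => ?_⟩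
  · have := key (s f + s g) (e (s f) + e (s g)) (by
      rw [smul_add, ← he, ← he, map_add, map_add]
      abel)
    rw [map_add, map_add, hs, hs] at this
    exact this.symm
  · have := key (PowerSeries.C c • s f) (PowerSeries.C c • e (s f)) (by
      rw [smul_comm, ← he, map_smul, map_smul, smul_sub])
    rw [Q1.π_smul, Q2.π_smul, hs, PowerSeries.constantCoeff_C] at this
    exact this.symm
  · have := key (s f * s g) (ψ (s f) * e (s g) + e (s f) * φ (s g)) (by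
      rw [smul_add, ← mul_smul_comm, ← smul_mul_assoc, ← he, ← he, map_mul, map_mul]
      noncomm_ring)
    rw [map_add, map_mul, map_mul, map_mul, hψ, hφ, hs, hs] at this
    exact this.symm

lemma Lead.poisson {Q1 : PQ Ot M} {Q2 : PQ O B} {N : ℕ} (hT : Q2.Trunc N)
    (hs : Function.Surjective Q1.π) {q : Ot →ₐ[ℂ] O} {φ ψ : M →ₐ[ℂ⟦X⟧] B}
    (hφ : ∀ m, Q2.π (φ m) = q (Q1.π m)) (hψ : ∀ m, Q2.π (ψ m) = q (Q1.π m)) {n : ℕ}
    (hn : n + 1 < N) (hd : ∀ m, Dv n (ψ m - φ m)) {βt : Ot → Ot → Ot} {β : O → O → O}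
    (h1 : Q1.Induces βt) (h2 : Q2.Induces β) {δ : Ot → O} (hδ : Lead Q1 Q2 φ ψ n δ) (f g : Ot) :
    δ (βt f g) = β (δ f) (q g) + β (q f) (δ g) := by
  obtain ⟨a, rfl⟩ := hs f
  obtain ⟨b, rfl⟩ := hs g
  obtain ⟨c, hc⟩ := Q1.comm_dv a b
  obtain ⟨ea, hea⟩ := hd a
  obtain ⟨eb, heb⟩ := hd b
  obtain ⟨ec, hec⟩ := hd c
  obtain ⟨c1, hc1⟩ := Q2.comm_dv ea (φ b)
  obtain ⟨c2, hc2⟩ := Q2.comm_dv (ψ a) eb
  have e1 : hb ^ (n + 1) • (ec - c1 - c2) = 0 := by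
    have ha' : ψ a = φ a + hb ^ n • ea := by rw [← hea]; abel
    have hb'' : ψ b = φ b + hb ^ n • eb := by rw [← heb]; abel
    have t1 : hb ^ (n + 1) • ec = (ψ a * ψ b - ψ b * ψ a) - (φ a * φ b - φ b * φ a) := by
      rw [pow_succ', mul_smul, ← hec, smul_sub, ← map_smul, ← map_smul, ← hc]
      simp only [map_sub, map_mul]
    have t2 : hb ^ (n + 1) • c1 = (hb ^ n • ea) * φ b - φ b * (hb ^ n • ea) := by
      rw [pow_succ, mul_smul, ← hc1, smul_sub, smul_mul_assoc, mul_smul_comm]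
    have t3 : hb ^ (n + 1) • c2 = ψ a * (hb ^ n • eb) - (hb ^ n • eb) * ψ a := by
      rw [pow_succ, mul_smul, ← hc2, smul_sub, smul_mul_assoc, mul_smul_comm]
    rw [smul_sub, smul_sub, t1, t2, t3, ← hea, ← heb]
    noncomm_ring
  have e2 := hT.2 _ hn _ e1
  rw [map_sub, map_sub, hδ c ec hec, h1 a b c hc, h2 _ _ _ hc1, h2 _ _ _ hc2, hδ a ea hea,
    hδ b eb heb, hφ, hψ] at e2
  linear_combination e2

/-- changing lifts of Darboux coordinates by a Hamiltonian vector field -/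
lemma ccr_shift {τ : Type} (Q : PQ O B) {β : O → O → O} (hp : IsPoisson β) (hI : Q.Induces β)
    (J : τ → τ → ℂ) (z : τ → O) (hz : ∀ s t, β (z s) (z t) = algebraMap ℂ O (J s t)) (F : O)
    (b y : τ → B) (hb1 : ∀ s, Q.π (b s) = z s) (hy : ∀ s, Q.π (y s) = β F (z s)) {n : ℕ}
    (hn : 1 ≤ n) (hc : CCR J b (n + 2)) : CCR J (fun s => b s - hb ^ n • y s) (n + 2) := by
  intro s t
  obtain ⟨c1, hc1⟩ := Q.comm_dv (b s) (y t)
  obtain ⟨c2, hc2⟩ := Q.comm_dv (y s) (b t)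
  obtain ⟨c3, hc3⟩ := Q.comm_dv (y s) (y t)
  have h0 : Q.π (c1 + c2) = 0 := by
    rw [map_add, hI _ _ _ hc1, hI _ _ _ hc2, hb1, hb1, hy, hy, add_comm, ← br_leib hp, hz,
      br_alg_r hp]
  obtain ⟨d, hd⟩ := Q.ker _ h0
  have e1 : Dv (n + 2) (hb ^ n • (hb • (c1 + c2))) :=
    ⟨d, by rw [hd, smul_smul, smul_smul, pow_add, pow_two, mul_assoc]⟩
  have e2 : Dv (n + 2) (hb ^ n • hb ^ n • (hb • c3)) :=
    Dv.mono ⟨c3, by rw [smul_smul, smul_smul, ← pow_add, ← pow_succ]⟩ (by omega)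
  have := ((hc s t).sub e1).add e2
  convert this using 1
  rw [smul_add hb, ← hc1, ← hc2, ← hc3]
  simp only [sub_mul, mul_sub, smul_mul_assoc, mul_smul_comm, smul_sub, smul_add]
  abel

end Pool.Agent.MP_86c931_ag.H37
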