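import Pool.Agent.MP_86c931_ag.H37.CMPb

/-! The classical part of the comparison theorem. -/

namespace Pool.Agent.MP_86c931_ag.H37

open Pool.Agent.MP_86c931_ag.H56

lemma clear_den {O : Type} [CommRing O] [Algebra ℂ O] (S : Subalgebra ℂ O) {u : O} (hu : u ∈ S)
    (T : Set O) (hT : ∀ x ∈ T, u * x ∈ S) (f : O) (hf : f ∈ Algebra.adjoin ℂ T) :
    ∃ j : ℕ, u ^ j * f ∈ S := by
  induction hf using Algebra.adjoin_induction with
  | mem x hx => exact ⟨1, by rw [pow_one]; exact hT x hx⟩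
  | algebraMap r => exact ⟨0, by rw [pow_zero, one_mul]; exact S.algebraMap_mem r⟩
  | add x y _ _ hx hy =>
    obtain ⟨i, hi⟩ := hx
    obtain ⟨j, hj⟩ := hy
    refine ⟨i + j, ?_⟩
    have := S.add_mem (S.mul_mem (S.pow_mem hu j) hi) (S.mul_mem (S.pow_mem hu i) hj)
    convert this using 1
    ring
  | mul x y _ _ hx hy =>
    obtain ⟨i, hi⟩ := hx
    obtain ⟨j, hj⟩ := hy
    refine ⟨i + j, ?_⟩
    convert S.mul_mem hi hj using 1
    ring

variable {κ : Type} {σ : κ → Type} [∀ k, DecidableEq (σ k)] {Ot O : Type} [CommRing Ot]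
  [Algebra ℂ Ot] [CommRing O] [Algebra ℂ O] (D : CData κ σ Ot O)

/-- coordinates together with the parameter -/
def zt (k : κ) : Option (σ k) → Ot := fun t => t.elim D.H (D.z k)

/-- coordinates on the fibre -/
def zb (k : κ) : σ k → O := fun s => D.q (D.z k s)

lemma adjoin_zt (k : κ) : Algebra.adjoin ℂ (Set.range (zt D k)) = D.Otk k := by
  unfold CData.Otk
  congr 1
  ext x
  constructor
  · rintro ⟨_ | s, rfl⟩
    · exact Or.inr rfl
    · exact Or.inl ⟨s, rfl⟩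
  · rintro (⟨s, rfl⟩ | rfl)
    · exact ⟨some s, rfl⟩
    · exact ⟨none, rfl⟩

lemma darbT (k : κ) : Darb D.βt (D.z k) (D.dual k) (D.sgn k) :=
  ⟨D.pt, D.dual_dual k, D.sgn_sq k, D.sgn_dual k, fun s t => by
    rw [D.ccr, Jm]
    split_ifs <;> simp⟩

lemma darbO (k : κ) : Darb D.β (zb D k) (D.dual k) (D.sgn k) :=
  ⟨D.p, D.dual_dual k, D.sgn_sq k, D.sgn_dual k, fun s t => by
    rw [zb, zb, ← D.q_br, (darbT D k).ccr, AlgHom.commutes]⟩

lemma br_H (f : Ot) : D.βt f D.H = 0 := by rw [br_anti D.pt, D.H_br, neg_zero]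

lemma algInd (Alg : RowAlg) (k : κ) : AlgebraicIndependent ℂ (zt D k) := by
  have := D.nontriv
  have : Nontrivial Ot := D.q.toRingHom.domain_nontrivial
  refine Alg Ot (Option (σ k)) (fun t => t.elim (D.η k) (darbT D k).coord.d) (zt D k) ?_
  rintro (_ | s) (_ | t)
  · simpa [zt] using D.η_H k
  · simpa [zt] using D.η_z k t
  · simp only [zt, Option.elim, Darb.coord_d, br_H, smul_zero]
    simp
  · have := (darbT D k).coord.dz s t
    simpa [zt, Darb.coord_z] using this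

lemma a_inv (k l : κ) : D.a k l * D.a l k = 1 := by rw [D.a_mul, D.a_self]

lemma z_mem (k : κ) (s : σ k) : D.z k s ∈ D.Otk k :=
  Algebra.subset_adjoin (Or.inl ⟨s, rfl⟩)

lemma H_mem (k : κ) : D.H ∈ D.Otk k := Algebra.subset_adjoin (Or.inr rfl)

lemma a_mem (k l : κ) : D.a k l ∈ D.Otk k := by
  by_cases h : k = l
  · subst h
    rw [D.a_self]
    exact Subalgebra.one_mem _
  · rw [D.a_eq k l h]
    exact z_mem D k _

lemma clear_kl (k l : κ) (f : Ot) (hf : f ∈ D.Otkl k l) : ∃ j : ℕ, D.a k l ^ j * f ∈ D.Otk k := by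
  refine clear_den _ (a_mem D k l) _ ?_ f hf
  rintro x ((⟨s, rfl⟩ | rfl) | rfl)
  · exact Subalgebra.mul_mem _ (a_mem D k l) (z_mem D k s)
  · exact Subalgebra.mul_mem _ (a_mem D k l) (H_mem D k)
  · rw [a_inv]
    exact Subalgebra.one_mem _

lemma ainv_mem (k l : κ) : D.q (D.a l k) ∈ D.Okl k l :=
  ⟨_, Algebra.subset_adjoin (Or.inr rfl), rfl⟩

section fin

variable [Fintype κ]

/-- the common denominator -/
def bigA (k : κ) : Ot := ∏ l, D.a k l

lemma bigA_mem (k : κ) : bigA D k ∈ D.Otk k :=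
  Subalgebra.prod_mem _ fun l _ => a_mem D k l

lemma bigA_inv (k : κ) : bigA D k * ∏ l, D.a l k = 1 := by
  rw [bigA, ← Finset.prod_mul_distrib]
  exact Finset.prod_eq_one fun l _ => a_inv D k l

lemma clear_A [DecidableEq κ] (k : κ) (f : Ot) : ∃ j : ℕ, bigA D k ^ j * f ∈ D.Otk k := by
  refine clear_den _ (bigA_mem D k) _ ?_ f (by rw [D.gen k]; trivial)
  rintro x ((⟨s, rfl⟩ | rfl) | ⟨l, rfl⟩)
  · exact Subalgebra.mul_mem _ (bigA_mem D k) (z_mem D k s)
  · exact Subalgebra.mul_mem _ (bigA_mem D k) (H_mem D k)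
  · rw [bigA, ← Finset.prod_erase_mul _ _ (Finset.mem_univ l), mul_assoc, a_inv, mul_one]
    exact Subalgebra.prod_mem _ fun m _ => a_mem D k m

end fin

lemma Ok_eq (k : κ) : D.Ok k = Algebra.adjoin ℂ (Set.range (zb D k) ∪ {D.q D.H}) := by
  rw [CData.Ok, CData.Otk, AlgHom.map_adjoin, Set.image_union, Set.image_singleton,
    ← Set.range_comp]
  rfl

lemma Okl_eq (k l : κ) :
    D.Okl k l = Algebra.adjoin ℂ (Set.range (zb D k) ∪ {D.q (D.a l k)}) := by
  rw [CData.Okl, CData.Otkl, AlgHom.map_adjoin]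
  refine le_antisymm (Algebra.adjoin_le ?_) (Algebra.adjoin_mono ?_)
  · rintro _ ⟨x, (⟨s, rfl⟩ | rfl) | rfl, rfl⟩
    · exact Algebra.subset_adjoin (Or.inl ⟨s, rfl⟩)
    · rw [D.q_H]
      exact Subalgebra.zero_mem _
    · exact Algebra.subset_adjoin (Or.inr rfl)
  · rintro _ (⟨s, rfl⟩ | rfl)
    · exact ⟨_, Or.inl (Or.inl ⟨s, rfl⟩), rfl⟩
    · exact ⟨_, Or.inr rfl, rfl⟩

/-- the inverted coordinates -/
def invs (k : κ) : Set O := {w | ∃ l, k ≠ l ∧ w = D.q (D.a l k)}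

lemma zb_pos (k l : κ) (h : k ≠ l) : zb D k (D.pos k l h) = D.q (D.a k l) := by
  rw [zb, D.a_eq k l h]

lemma qa_inv (k l : κ) : D.q (D.a k l) * D.q (D.a l k) = 1 := by rw [← map_mul, a_inv, map_one]

lemma invs_inv (k : κ) : ∀ w ∈ invs D k, ∃ s, zb D k s * w = 1 := by
  rintro _ ⟨l, h, rfl⟩
  exact ⟨D.pos k l h, by rw [zb_pos, qa_inv]⟩

lemma invs_top (k : κ) : Algebra.adjoin ℂ (Set.range (zb D k) ∪ invs D k) = ⊤ := by
  refine top_le_iff.1 fun f _ => ?_
  obtain ⟨f, rfl⟩ := D.q_surj f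
  have hf : f ∈ Algebra.adjoin ℂ (Set.range (D.z k) ∪ {D.H} ∪ Set.range fun l => D.a l k) := by
    rw [D.gen k]
    trivial
  have h2 : D.q f ∈ (Algebra.adjoin ℂ
      (Set.range (D.z k) ∪ {D.H} ∪ Set.range fun l => D.a l k)).map D.q := ⟨f, hf, rfl⟩
  rw [AlgHom.map_adjoin] at h2
  refine Algebra.adjoin_le ?_ h2
  rintro _ ⟨x, (⟨s, rfl⟩ | rfl) | ⟨l, rfl⟩, rfl⟩
  · exact Algebra.subset_adjoin (Or.inl ⟨s, rfl⟩)
  · rw [D.q_H]
    exact Subalgebra.zero_mem _
  · by_cases h : k = l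
    · subst h
      simp only [D.a_self, map_one]
      exact Subalgebra.one_mem _
    · exact Algebra.subset_adjoin (Or.inr ⟨l, h, rfl⟩)

lemma qd_ext (k : κ) {δ ε : Ot → O} (h : IsQD D.q δ) (h' : IsQD D.q ε)
    (hz : ∀ s, δ (D.z k s) = ε (D.z k s)) (hH : δ D.H = ε D.H) (f : Ot) : δ f = ε f := by
  refine h.ext h' _ ?_ f (by rw [D.gen k]; trivial)
  rintro x ((⟨s, rfl⟩ | rfl) | ⟨l, rfl⟩)
  · exact hz s
  · exact hH
  · refine h.inv h' (a_inv D k l) ?_
    by_cases e : k = l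
    · subst e
      rw [D.a_self, h.one, h'.one]
    · rw [D.a_eq k l e]
      exact hz _

/-- the vector field attached to a function and a constant -/
def theta (k : κ) (F : O) (c : ℂ) (g : Ot) : O := D.β F (D.q g) + c • D.q (D.η k g)

lemma theta_qd (k : κ) (F : O) (c : ℂ) : IsQD D.q (theta D k F c) := by
  have := (isQD_br (q := D.q) D.p F).comb (isQD_der (D.η k)) 1 (algebraMap ℂ O c)
  simp only [one_mul, ← Algebra.smul_def] at this
  exact this

lemma theta_z (k : κ) (F : O) (c : ℂ) (s : σ k) : theta D k F c (D.z k s) = D.β F (zb D k s) := by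
  rw [theta, D.η_z, map_zero, smul_zero, add_zero, zb]

lemma theta_H (k : κ) (F : O) (c : ℂ) : theta D k F c D.H = algebraMap ℂ O c := by
  rw [theta, D.q_H, br_zero_r D.p, D.η_H, map_one, zero_add, Algebra.algebraMap_eq_smul_one]

lemma br_Ok (k : κ) {F : O} (hF : F ∈ D.Ok k) (s : σ k) : D.β F (zb D k s) ∈ D.Ok k := by
  rw [Ok_eq] at hF ⊢
  refine (darbO D k).br_mem _ ?_ s F hF
  rintro s _ rfl
  rw [D.q_H, br_zero_r D.p]

variable [∀ k, Fintype (σ k)]

lemma solve_pair (P1 : RowP1) (k l : κ) (h : k ≠ l) {δ : Ot → O} (hδ : IsQD D.q δ)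
    (hP : ∀ f g, δ (D.βt f g) = D.β (δ f) (D.q g) + D.β (D.q f) (δ g)) (hH : δ D.H = 0)
    (hz : ∀ s, δ (D.z k s) ∈ D.Okl k l) :
    ∃ f ∈ D.Okl k l, ∃ c : ℂ,
      ∀ g, δ g = D.β f (D.q g) + c • (D.q (D.η l g) - D.q (D.η k g)) := by
  rw [Okl_eq] at hz ⊢
  obtain ⟨f, hf, c, hc⟩ := (darbO D k).p1 P1 (D.pos k l h) (D.q (D.a l k))
    (by rw [zb_pos, qa_inv]) (fun s => δ (D.z k s)) hz (fun s t => by
      have := hP (D.z k s) (D.z k t)
      rw [(darbT D k).ccr, hδ.alg] at this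
      exact this.symm)
  refine ⟨f, hf, c, qd_ext D k hδ ?_ (fun s => ?_) ?_⟩
  · have := (theta_qd D l f c).comb (isQD_der (D.η k)) 1 (-algebraMap ℂ O c)
    convert this using 2 with g
    rw [theta, Algebra.smul_def, Algebra.smul_def]
    ring
  · rw [hc, D.η_sub, zb_pos]
    rfl
  · rw [hH, D.η_H, D.η_H, D.q_H, br_zero_r D.p, sub_self, smul_zero, add_zero]

lemma const_eq (P0 : RowP0) (k l m : κ) (hl : k ≠ l) (hm : k ≠ m) (hlm : l ≠ m) (F : O) (r r' : ℂ)
    (h : ∀ g, D.β F (D.q g) + r • (D.q (D.η l g) - D.q (D.η k g)) +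
      r' • (D.q (D.η m g) - D.q (D.η k g)) = 0) : r = 0 := by
  have := D.nontriv
  have h1 := h (D.z k (D.dual k (D.pos k l hl)))
  rw [D.η_sub, D.η_sub, ← zb_pos D k l hl, ← zb_pos D k m hm] at h1
  have e1 := (darbO D k).ccr (D.pos k l hl) (D.dual k (D.pos k l hl))
  have e2 := (darbO D k).ccr (D.pos k m hm) (D.dual k (D.pos k l hl))
  rw [Jm, if_pos rfl] at e1
  rw [Jm, if_neg (fun e => hlm (D.pos_inj k l m hl hm ((darbO D k).inj e))), map_zero] at e2
  change D.β F (zb D k _) + r • (D.β _ (zb D k _) * _) + r' • (D.β _ (zb D k _) * _) = 0 at h1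
  rw [e1, e2, zero_mul, smul_zero, add_zero, Algebra.smul_def] at h1
  have h2 := (darbO D k).p0a P0 _ (invs_inv D k) (invs_top D k) F (D.pos k l hl)
    (-(r * D.sgn k (D.pos k l hl))) (by
      rw [map_neg, map_mul, zb_pos]
      linear_combination D.q (D.a k l) * h1 - algebraMap ℂ O r *
        algebraMap ℂ O (D.sgn k (D.pos k l hl)) * qa_inv D k l)
  linear_combination -D.sgn k (D.pos k l hl) * h2 - r * D.sgn_sq k (D.pos k l hl)

lemma solve (P1 : RowP1) (P0 : RowP0) (δ : κ → κ → Ot → O) (hδ : ∀ k l, IsQD D.q (δ k l))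
    (hP : ∀ k l f g, δ k l (D.βt f g) = D.β (δ k l f) (D.q g) + D.β (D.q f) (δ k l g))
    (hH : ∀ k l, δ k l D.H = 0) (hz : ∀ k l s, δ k l (D.z k s) ∈ D.Okl k l)
    (hco : ∀ k l m g, δ k l g + δ l m g = δ k m g) :
    ∃ (c : ℂ) (F : κ → O), (∀ k, F k ∈ D.Ok k) ∧
      ∀ k l g, δ k l g = theta D l (F l) c g - theta D k (F k) c g := by
  rcases isEmpty_or_nonempty κ with hκ | ⟨⟨o⟩⟩
  · exact ⟨0, fun k => hκ.elim k, fun k => hκ.elim k, fun k => hκ.elim k⟩
  have h0 : ∀ k l, ∃ f ∈ D.Okl k l, ∃ c : ℂ,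
      ∀ g, δ k l g = D.β f (D.q g) + c • (D.q (D.η l g) - D.q (D.η k g)) := by
    intro k l
    by_cases h : k = l
    · subst h
      refine ⟨0, Subalgebra.zero_mem _, 0, fun g => ?_⟩
      rw [br_zero_l D.p, zero_smul, add_zero]
      linear_combination hco k k k g
    · exact solve_pair D P1 k l h (hδ k l) (hP k l) (hH k l) (hz k l)
  choose f hf c hc using h0
  have h1 : ∀ k l m g, D.β (f k l + f l m - f k m) (D.q g) +
      (c k l - c l m) • (D.q (D.η l g) - D.q (D.η k g)) +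
      (c l m - c k m) • (D.q (D.η m g) - D.q (D.η k g)) = 0 := by
    intro k l m g
    have := hco k l m g
    rw [hc, hc, hc] at this
    rw [br_sub_l D.p, br_add_l D.p]
    simp only [Algebra.smul_def, map_sub] at this ⊢
    linear_combination this
  have h2 : ∀ k l m, k ≠ l → k ≠ m → l ≠ m → c k l = c l m ∧ c l m = c k m := by
    intro k l m hl hm hlm
    refine ⟨sub_eq_zero.1 (const_eq D P0 k l m hl hm hlm _ _ _ (h1 k l m)),
      sub_eq_zero.1 (const_eq D P0 k m l hm hl hlm.symm (f k l + f l m - f k m) _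
        (c k l - c l m) fun g => ?_)⟩
    linear_combination h1 k l m g
  have h3 : ∀ k l m, k ≠ l → k ≠ m → c k l = c k m := by
    intro k l m hl hm
    by_cases e : l = m
    · rw [e]
    · exact (h2 k l m hl hm e).1.trans (h2 k l m hl hm e).2
  have h4 : ∀ k l m, k ≠ m → l ≠ m → c k m = c l m := by
    intro k l m hk hl
    by_cases e : k = l
    · rw [e]
    · exact (h2 k l m e hk hl).2.symm
  obtain ⟨o', ho', -⟩ := D.three o o
  have h5 : ∀ k l, k ≠ l → c k l = c o o' := by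
    intro k l h
    obtain ⟨m, hk, ho⟩ := D.three k o
    rw [h3 k l m h hk.symm, h4 k o m hk.symm ho.symm, h3 o m o' ho.symm ho'.symm]
  have h6 : ∀ k l g, δ k l g = D.β (f k l) (D.q g) + c o o' • (D.q (D.η l g) - D.q (D.η k g)) := by
    intro k l g
    rw [hc]
    by_cases h : k = l
    · subst h
      rw [sub_self, smul_zero, smul_zero]
    · rw [h5 k l h]
  have h7 : ∀ k l, ∃ r : ℂ, f o k + f k l - f o l = algebraMap ℂ O r := by
    intro k l
    refine (darbO D k).p0b P0 _ (invs_inv D k) (invs_top D k) _ fun s => ?_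
    have := hco o k l (D.z k s)
    rw [h6, h6, h6] at this
    rw [br_sub_l D.p, br_add_l D.p, zb]
    simp only [Algebra.smul_def] at this
    linear_combination this
  obtain ⟨c0, hc0⟩ := D.cech (f o) fun k l => by
    obtain ⟨r, hr⟩ := h7 k l
    have : f o k - f o l = algebraMap ℂ O r - f k l := by linear_combination hr
    rw [this]
    exact Subalgebra.sub_mem _ (Subalgebra.algebraMap_mem _ _) (hf k l)
  refine ⟨c o o', fun k => f o k - c0, hc0, fun k l g => ?_⟩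
  obtain ⟨r, hr⟩ := h7 k l
  have e : f k l = (f o l - c0) - (f o k - c0) + algebraMap ℂ O r := by linear_combination hr
  rw [h6, e, br_add_l D.p, br_sub_l D.p, br_alg_l D.p, theta, theta, smul_sub]
  ring

end Pool.Agent.MP_86c931_ag.H37
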